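import Pool.Agent.X242.UW7
import Pool.Agent.X242.UW8
import Pool.Agent.X298.ST.Main

/-!
# The equivariant Beilinson conjecture for `K_{2k-1}` of abelian extensions and explicit elements of the rational group ring

`L/K` is an abelian extension of number fields with group `G`, `k > 1`. Choose generators `h` of `det H`,
`H = ℚ ⊗ K_{2k-1}(L)`, and `b` of `det B_L^+` over `ℚ[G]`; the Borel regulator maps `h` to `D · b` with `D ∈ ℝ[G]`, with
components `D(χ)`, and the conjecture says that `D = u · L*(1-k)` with some `u ∈ ℚ[G]`, where `L*(1-k)` has the components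
`L*(χ⁻¹, 1-k)`. By Artin's reciprocity law there is an ideal `𝔪 ≠ (0), (1)` of `K` such that the Artin symbol is a map `c`
from the ideals to `G`, multiplicative on the ideals prime to `𝔪` and trivial on the ideals `(x)`, `x ≡ 1` modulo `𝔪`, `x`
totally positive; `L(s, χ) = ∑ χ(c(𝔞)) N𝔞^{-s}`, over the ideals prime to `𝔪`. (The finitely many Euler factors of the
primes dividing `𝔪` do not affect the conjecture.)

**The weights.** For `d ≥ 0` let `C_d(γ) = (-1)^d (d/dt)^d (e^{iγt} / Γ(1 + t))` at `t = 0`. Fix for every `d` a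
`γ = γ_d > π/2` with `C_d(γ) ≠ 0` and rational numbers `ρ_{d,N}(n)`, for every `N` almost all of them zero, with
`|ρ_{d,N}(n) - Re (N^d e^{iγ log n / N} / (C_d(γ) Γ(1 + log n / N)))| ≤ 1 / (N n²)`. They exist, and do not depend on
fields, groups and characters.

**The elements.** Let `x_N^{(d)} ∈ ℚ[G]` be the element with the coefficients
`k^{-d} ∑_n ρ_{d,N}(n^k) n^{k-1} #{𝔞 : N𝔞 = n, c(𝔞) = g⁻¹}` at `g`, finite sums. Let `r(χ)` be the order of `L(s, χ)` at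
`1 - k` and `e_d ∈ ℚ[G]` the idempotent with the components `1` at the `χ` with `r(χ⁻¹) = d` and `0` at the others (it is
rational, as `r(χ)` is determined by the signature of `K` and the values of `χ` at the complex conjugations), and
`X_N = ∑_d e_d x_N^{(d)} ∈ ℚ[G]`.

1. The `L(s, χ)` continue (unconditionally).
2. `χ(x_N^{(d)}) = L*(χ⁻¹, 1-k) + O(1/N)` if `r(χ⁻¹) = d`.
3. `χ(X_N) = L*(χ⁻¹, 1-k) + O(1/N)` for all `χ`: the `X_N` are elements of `ℚ[G]` which converge to `L*(1-k)` in `ℝ[G]`.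
4. For all `D` equivalent are: (a) `D = u L*(1-k)` for some `u ∈ ℚ[G]` (the conjecture); (b) `D = lim u X_N` for some
   `u ∈ ℚ[G]`; (c) for some `M ≥ 1` the elements `M D / X_N` come arbitrarily close to `ℤ[G]` for arbitrarily large `N`.
-/

set_option autoImplicit false

open Filter Topology Asymptotics
open IsDedekindDomain NumberField

namespace Pool.Agent.Results.MP_a93ca1_nt.GroupRingApproximations

open Pool.Agent.X298.ST Pool.Agent.X242.DR Pool.Agent.X242.GRA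

section

variable {K : Type} [Field K] [NumberField K]

/-- `c` is multiplicative on the ideals prime to `𝔪` and trivial on the principal ideals of totally positive
`x ≡ 1` modulo `𝔪`. -/
structure IsClassMap {G : Type} [Group G] (𝔪 : Ideal (𝓞 K)) (c : Ideal (𝓞 K) → G) : Prop where
  mul : ∀ I J : Ideal (𝓞 K), IsCoprime I 𝔪 → IsCoprime J 𝔪 → c (I * J) = c I * c J
  ray : ∀ x : 𝓞 K, x ≠ 0 → x - 1 ∈ 𝔪 → (∀ σ : K →+* ℝ, 0 < σ (x : K)) → c (Ideal.span {x}) = 1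

/-- `N𝔞^{-s}` -/
noncomputable def npow (𝔞 : Ideal (𝓞 K)) (s : ℂ) : ℂ := ((Ideal.absNorm 𝔞 : ℕ) : ℂ) ^ (-s)

/-- `Λ` is `L(s, f)`: the sum over the ideals prime to `𝔪` for `Re s > 1`, continued to a function which is analytic outside
of `1` and meromorphic at `1`. -/
structure IsL {G : Type} (𝔪 : Ideal (𝓞 K)) (c : Ideal (𝓞 K) → G) (f : G → ℂ) (Λ : ℂ → ℂ) : Prop where
  series : ∀ s : ℂ, 1 < s.re → HasSum (fun 𝔞 : {𝔞 : Ideal (𝓞 K) // IsCoprime 𝔞 𝔪} =>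
    f (c 𝔞.1) * npow 𝔞.1 s) (Λ s)
  analytic : ∀ s : ℂ, s ≠ 1 → AnalyticAt ℂ Λ s
  mero : MeromorphicAt Λ 1

open Classical in
/-- `b_n(f)` -/
noncomputable def coeff {G E : Type} [Field E] (𝔪 : Ideal (𝓞 K)) (c : Ideal (𝓞 K) → G) (f : G → E)
    (n : ℕ) : E :=
  byNorm (fun 𝔞 : Ideal (𝓞 K) => if IsCoprime 𝔞 𝔪 then f (c 𝔞) else 0) n

/-- `x_N(f) = k^{-d} ∑_n ρ_N(n^k) n^{k-1} b_n(f)`, for `ρ = ρ_N` -/
noncomputable def approx {G E : Type} [Field E] (𝔪 : Ideal (𝓞 K)) (c : Ideal (𝓞 K) → G) (k d : ℕ)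
    (ρ : ℕ →₀ ℚ) (f : G → E) : E :=
  comb ρ (powCoef k fun n : ℕ => (n : E) ^ (k - 1) * coeff 𝔪 c f n) / (k : E) ^ d

/-- `θ` is the leading coefficient of `Λ` at `1 - k` if the order is `d`: `Λ(s) = θ (s - 1 + k)^d + ⋯`. -/
def HasLead (k d : ℕ) (Λ : ℂ → ℂ) (θ : ℂ) : Prop :=
  Tendsto (fun s : ℂ => Λ (s + (1 - k)) / s ^ d) (𝓝[≠] 0) (𝓝 θ)

theorem coeff_map {G E E' : Type} [Field E] [Field E'] (σ : E →+* E') (𝔪 : Ideal (𝓞 K))
    (c : Ideal (𝓞 K) → G) (f : G → E) (n : ℕ) :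
    coeff 𝔪 c (fun g => σ (f g)) n = σ (coeff 𝔪 c f n) := by
  classical
  unfold coeff
  have e := byNorm_map (K := K) σ.toAddMonoidHom
    (fun 𝔞 : Ideal (𝓞 K) => if IsCoprime 𝔞 𝔪 then f (c 𝔞) else 0) n
  have e2 : (fun 𝔞 : Ideal (𝓞 K) => σ.toAddMonoidHom (if IsCoprime 𝔞 𝔪 then f (c 𝔞) else 0)) =
      fun 𝔞 : Ideal (𝓞 K) => if IsCoprime 𝔞 𝔪 then σ (f (c 𝔞)) else 0 := by
    funext 𝔞
    split_ifs
    · rfl
    · exact map_zero σ
  rw [e2] at e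
  exact e

theorem approx_map {G E E' : Type} [Field E] [CharZero E] [Field E'] [CharZero E'] (σ : E →+* E')
    (𝔪 : Ideal (𝓞 K)) (c : Ideal (𝓞 K) → G) (k d : ℕ) (ρ : ℕ →₀ ℚ) (f : G → E) :
    approx 𝔪 c k d ρ (fun g => σ (f g)) = σ (approx 𝔪 c k d ρ f) := by
  unfold approx
  rw [map_div₀, map_pow, map_natCast]
  congr 1
  have e : (powCoef k fun n : ℕ => (n : E') ^ (k - 1) * coeff 𝔪 c (fun g => σ (f g)) n) =
      fun m => σ (powCoef k (fun n : ℕ => (n : E) ^ (k - 1) * coeff 𝔪 c f n) m) := by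
    funext m
    have e1 := powCoef_map σ.toAddMonoidHom k (fun n : ℕ => (n : E) ^ (k - 1) * coeff 𝔪 c f n) m
    have e2 : (fun n : ℕ => σ.toAddMonoidHom ((n : E) ^ (k - 1) * coeff 𝔪 c f n)) =
        fun n : ℕ => (n : E') ^ (k - 1) * coeff 𝔪 c (fun g => σ (f g)) n := by
      funext n
      rw [coeff_map]
      show σ _ = _
      rw [map_mul, map_pow, map_natCast]
    rw [e2] at e1
    exact e1
  rw [e, comb_hom σ ρ]

theorem exists_isL {G : Type} [Group G] [Finite G] (hcomm : ∀ a b : G, a * b = b * a)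
    {𝔪 : Ideal (𝓞 K)} (h0 : 𝔪 ≠ ⊥) (h1 : 𝔪 ≠ ⊤) {c : Ideal (𝓞 K) → G} (hc : IsClassMap 𝔪 c)
    (f : G → ℂ) : ∃ Λ : ℂ → ℂ, IsL 𝔪 c f Λ := by
  classical
  have iF : Fintype G := Fintype.ofFinite _
  obtain ⟨⟨ζ, hζ⟩, -⟩ := class_facts (K := K) (R := ∅) hcomm h1 h0 hc.mul
    fun x hx0 hx1 hx2 => hc.ray x hx0 hx1 fun σ => hx2 σ (by simp)
  refine ⟨fun s => ∑ g, f g * ζ g s, fun s hs => ?_, fun s hs => ?_, ?_⟩
  · show HasSum (fun 𝔞 : {𝔞 : Ideal (𝓞 K) // IsCoprime 𝔞 𝔪} =>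
      f (c 𝔞.1) * ((Ideal.absNorm 𝔞.1 : ℕ) : ℂ) ^ (-s)) (∑ g, f g * ζ g s)
    have h2 : ∀ g : G, HasSum (fun 𝔞 : {𝔞 : Ideal (𝓞 K) // IsCoprime 𝔞 𝔪} =>
        f g * (if c 𝔞.1 = g then ((Ideal.absNorm 𝔞.1 : ℕ) : ℂ) ^ (-s) else 0)) (f g * ζ g s) := by
      intro g
      refine HasSum.mul_left _ ?_
      have h3 := hζ.series g s hs
      have h4 := (hasSum_subtype_iff_indicator (s := {𝔞 : Ideal (𝓞 K) | IsCoprime 𝔞 𝔪 ∧ c 𝔞 = g})
        (f := fun 𝔞 : Ideal (𝓞 K) => ((Ideal.absNorm 𝔞 : ℕ) : ℂ) ^ (-s))).1 h3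
      refine (hasSum_subtype_iff_indicator (s := {𝔞 : Ideal (𝓞 K) | IsCoprime 𝔞 𝔪})
        (f := fun 𝔞 : Ideal (𝓞 K) => if c 𝔞 = g then ((Ideal.absNorm 𝔞 : ℕ) : ℂ) ^ (-s) else 0)).2 ?_
      refine h4.congr_fun fun 𝔞 => ?_
      simp only [Set.indicator_apply, Set.mem_ofPred_eq]
      by_cases h5 : IsCoprime 𝔞 𝔪 <;> by_cases h6 : c 𝔞 = g <;> simp [h5, h6]
    have h3 := hasSum_sum fun g (_ : g ∈ Finset.univ) => h2 g
    refine h3.congr_fun fun 𝔞 => ?_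
    rw [Finset.sum_eq_single (c 𝔞.1)]
    · rw [if_pos rfl]
    · intro g _ hg
      rw [if_neg (Ne.symm hg), mul_zero]
    · intro h
      exact absurd (Finset.mem_univ _) h
  · exact Finset.analyticAt_fun_sum _ fun g _ => analyticAt_const.fun_mul (hζ.analytic g s hs)
  · have key : ∀ T : Finset G, MeromorphicAt (fun s : ℂ => ∑ g ∈ T, f g * ζ g s) 1 := by
      intro T
      induction T using Finset.induction_on with
      | empty => simp
      | insert q T hq ih =>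
        simp only [Finset.sum_insert hq]
        exact ((MeromorphicAt.const _ _).fun_mul (hζ.mero q)).fun_add ih
    exact key Finset.univ

/-- **The law.** -/
theorem law {G : Type} [Finite G] {𝔪 : Ideal (𝓞 K)} (h1 : 𝔪 ≠ ⊤) {c : Ideal (𝓞 K) → G} {f : G → ℂ}
    {Λ : ℂ → ℂ} (hΛ : IsL 𝔪 c f Λ) {k d : ℕ} (hk : 1 ≤ k) {θ : ℂ} (hθ : HasLead k d Λ θ) {γ : ℝ}
    (hγ : Real.pi / 2 < γ) (hC : Ck d γ ≠ 0) {ρ : ℕ → ℕ →₀ ℚ} (hρ : IsRational d γ ρ) :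
    (fun N : ℕ => approx 𝔪 c k d (ρ N) f - θ) =O[atTop] (fun N : ℕ => 1 / (N : ℝ)) := by
  classical
  have iF : Fintype G := Fintype.ofFinite _
  have hk0 : (k : ℂ) ≠ 0 := by exact_mod_cast (by omega : k ≠ 0)
  have hb : ∀ 𝔞 : Ideal (𝓞 K), ‖(if IsCoprime 𝔞 𝔪 then f (c 𝔞) else 0)‖ ≤ ∑ g, ‖f g‖ := by
    intro 𝔞
    split_ifs
    · exact Finset.single_le_sum (f := fun g => ‖f g‖) (fun _ _ => norm_nonneg _) (Finset.mem_univ _)
    · rw [norm_zero]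
      exact Finset.sum_nonneg fun g _ => norm_nonneg _
  have hz : (if IsCoprime (⊥ : Ideal (𝓞 K)) 𝔪 then f (c ⊥) else 0) = 0 := by
    rw [if_neg]
    intro h2
    rw [← Ideal.zero_eq_bot, isCoprime_zero_left] at h2
    exact h1 (Ideal.isUnit_iff.1 h2)
  have hmer : ∀ x : ℝ, x ≤ 1 → MeromorphicAt Λ (x : ℂ) := by
    intro x _
    by_cases hx : (x : ℂ) = 1
    · rw [hx]
      exact hΛ.mero
    · exact (hΛ.analytic _ hx).meromorphicAt
  have hS : IsSeries (coeff 𝔪 c f) Λ := by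
    refine isSeries_ideals hb hz (fun x _ hx => hmer x hx) fun s hs => ?_
    have h2 := (hasSum_subtype_iff_indicator (s := {𝔞 : Ideal (𝓞 K) | IsCoprime 𝔞 𝔪})
      (f := fun 𝔞 : Ideal (𝓞 K) => f (c 𝔞) * ((Ideal.absNorm 𝔞 : ℕ) : ℂ) ^ (-s))).1 (hΛ.series s hs)
    refine h2.congr_fun fun 𝔞 => ?_
    simp only [Set.indicator_apply, Set.mem_ofPred_eq]
    split_ifs
    · rfl
    · rw [zero_mul]
  have han : AnalyticAt ℂ Λ (1 - k) := by
    refine hΛ.analytic _ ?_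
    intro h2
    exact hk0 (by linear_combination -h2)
  have h2 := shift_law hS (byNorm_zero hz) hk hmer han hθ hγ hC hρ
  have h3 := h2.const_mul_left (((k : ℂ) ^ d)⁻¹)
  refine h3.congr_left fun N => ?_
  unfold approx
  have hkd : (k : ℂ) ^ d ≠ 0 := pow_ne_zero _ hk0
  field_simp

/-- linearity -/
theorem coeff_lin {G : Type} [Fintype G] [DecidableEq G] (𝔪 : Ideal (𝓞 K)) (c : Ideal (𝓞 K) → G) (f : G → ℂ)
    (n : ℕ) : coeff 𝔪 c f n = ∑ g, coeff 𝔪 c (fun h => if h = g then (1 : ℂ) else 0) n * f g := by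
  classical
  let F : Ideal (𝓞 K) → G → ℂ := fun 𝔞 g => if IsCoprime 𝔞 𝔪 then (if c 𝔞 = g then 1 else 0) else 0
  let φ : (G → ℂ) →+ ℂ :=
    { toFun := fun v => ∑ g, v g * f g
      map_zero' := by simp
      map_add' := fun v w => by
        simp only [Pi.add_apply, add_mul, Finset.sum_add_distrib] }
  have h1 := byNorm_map (K := K) φ F n
  have h2 : ∀ g, byNorm (fun 𝔞 => F 𝔞 g) n = byNorm F n g := fun g =>
    byNorm_map (K := K) (Pi.evalAddMonoidHom (fun _ : G => ℂ) g) F n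
  have h3 : (fun 𝔞 : Ideal (𝓞 K) => φ (F 𝔞)) = fun 𝔞 => if IsCoprime 𝔞 𝔪 then f (c 𝔞) else 0 := by
    funext 𝔞
    show ∑ g, (if IsCoprime 𝔞 𝔪 then (if c 𝔞 = g then (1 : ℂ) else 0) else 0) * f g = _
    by_cases h4 : IsCoprime 𝔞 𝔪
    · simp [h4]
    · simp [h4]
  rw [h3] at h1
  unfold coeff
  rw [h1]
  show ∑ g, byNorm F n g * f g = _
  refine Finset.sum_congr rfl fun g _ => ?_
  rw [← h2 g]

theorem approx_lin {G : Type} [Fintype G] [DecidableEq G] (𝔪 : Ideal (𝓞 K)) (c : Ideal (𝓞 K) → G) (k d : ℕ)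
    (ρ : ℕ →₀ ℚ) (f : G → ℂ) :
    approx 𝔪 c k d ρ f = ∑ g, approx 𝔪 c k d ρ (fun h => if h = g then (1 : ℂ) else 0) * f g := by
  have hp : ∀ m, powCoef k (fun n : ℕ => (n : ℂ) ^ (k - 1) * coeff 𝔪 c f n) m =
      ∑ g, powCoef k (fun n : ℕ => (n : ℂ) ^ (k - 1) *
        coeff 𝔪 c (fun h => if h = g then (1 : ℂ) else 0) n) m * f g := by
    intro m
    unfold powCoef
    simp only [coeff_lin 𝔪 c f, Finset.mul_sum, Finset.sum_mul]
    rw [Finset.sum_comm]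
    exact Finset.sum_congr rfl fun g _ => Finset.sum_congr rfl fun n _ => by ring
  unfold approx comb Finsupp.sum
  simp only [hp, Finset.mul_sum, Finset.sum_div, Finset.sum_mul]
  rw [Finset.sum_comm]
  exact Finset.sum_congr rfl fun g _ => Finset.sum_congr rfl fun n _ => by ring

open Classical in
/-- The element `x_N^{(d)}` of `ℚ[G]`, for `ρ = ρ_{d,N}`: the coefficient of `g` is
`k^{-d} ∑_n ρ(n^k) n^{k-1} #{𝔞 prime to 𝔪 : N𝔞 = n, c(𝔞) = g⁻¹}`. -/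
noncomputable def elt {G : Type} [CommGroup G] [Fintype G] (𝔪 : Ideal (𝓞 K)) (c : Ideal (𝓞 K) → G)
    (k d : ℕ) (ρ : ℕ →₀ ℚ) : MonoidAlgebra ℚ G :=
  elem fun g => approx 𝔪 c k d ρ (fun h => if h = g⁻¹ then (1 : ℚ) else 0)

theorem ev_elt {G : Type} [CommGroup G] [Fintype G] (𝔪 : Ideal (𝓞 K)) (c : Ideal (𝓞 K) → G) (k d : ℕ)
    (ρ : ℕ →₀ ℚ) (χ : Character G) : ev χ (elt 𝔪 c k d ρ) = approx 𝔪 c k d ρ (value (-χ)) := by
  classical
  unfold elt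
  rw [ev_elem, approx_lin 𝔪 c k d ρ (value (-χ)), ← Equiv.sum_comp (Equiv.inv G)]
  refine Finset.sum_congr rfl fun g _ => ?_
  rw [Equiv.inv_apply, inv_inv, value_neg]
  congr 1
  have h1 := approx_map (Rat.castHom ℂ) 𝔪 c k d ρ (fun h : G => if h = g then (1 : ℚ) else 0)
  rw [Rat.coe_castHom] at h1
  rw [show ((approx 𝔪 c k d ρ (fun h : G => if h = g then (1 : ℚ) else 0) : ℚ) : ℂ) = _ from h1.symm]
  congr 1
  funext h
  split_ifs <;> simp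

/-- `X_N = ∑_d e_d x_N^{(d)}`, over the orders `d = r(χ)`, for `ρ d = ρ_{d,N}` -/
noncomputable def total {G : Type} [CommGroup G] [Fintype G] (𝔪 : Ideal (𝓞 K)) (c : Ideal (𝓞 K) → G)
    (k : ℕ) (r : Character G → ℕ) (e : ℕ → MonoidAlgebra ℚ G) (ρ : ℕ → ℕ →₀ ℚ) : MonoidAlgebra ℚ G :=
  ∑ d ∈ Finset.univ.image r, e d * elt 𝔪 c k d (ρ d)

theorem ev_total {G : Type} [CommGroup G] [Fintype G] (𝔪 : Ideal (𝓞 K)) (c : Ideal (𝓞 K) → G)
    (k : ℕ) (r : Character G → ℕ) (e : ℕ → MonoidAlgebra ℚ G) (ρ : ℕ → ℕ →₀ ℚ)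
    (he : ∀ d χ, ev χ (e d) = if r (-χ) = d then 1 else 0) (χ : Character G) :
    ev χ (total 𝔪 c k r e ρ) = approx 𝔪 c k (r (-χ)) (ρ (r (-χ))) (value (-χ)) := by
  unfold total
  rw [map_sum, Finset.sum_eq_single (r (-χ))]
  · rw [map_mul, he, if_pos rfl, one_mul, ev_elt]
  · intro d _ hd
    rw [map_mul, he, if_neg (Ne.symm hd), zero_mul]
  · intro h
    exact absurd (Finset.mem_image_of_mem r (Finset.mem_univ _)) h

/-- quotients -/
theorem quot_bigO {x : ℕ → ℂ} {l R : ℂ} (hl : l ≠ 0)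
    (hO : (fun N : ℕ => x N - l) =O[atTop] fun N : ℕ => 1 / (N : ℝ))
    (hx : Tendsto x atTop (𝓝 l)) :
    (fun N : ℕ => R / x N - R / l) =O[atTop] fun N : ℕ => 1 / (N : ℝ) := by
  have h2 : ∀ᶠ N in atTop, x N ≠ 0 := hx.eventually_ne hl
  have h3 : (fun N : ℕ => (-R / (x N * l)) * (x N - l)) =O[atTop]
      fun N : ℕ => (1 : ℝ) * (1 / (N : ℝ)) := by
    refine IsBigO.mul ?_ hO
    have h4 : Tendsto (fun N : ℕ => -R / (x N * l)) atTop (𝓝 (-R / (l * l))) :=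
      tendsto_const_nhds.div (hx.mul_const l) (mul_ne_zero hl hl)
    exact h4.isBigO_one ℝ
  simp only [one_mul] at h3
  refine h3.congr' ?_ EventuallyEq.rfl
  filter_upwards [h2] with N hN
  field_simp
  ring

/-- The conjecture: `D = u L*(1-k)` with some `u ∈ ℚ[G]`, for the family `θ(χ) = L*(χ, 1-k)`. -/
def IsRationalMultiple {G : Type} [CommGroup G] [Fintype G] (D θ : Character G → ℂ) : Prop :=
  ∃ u : MonoidAlgebra ℚ G, ∀ χ, D χ = ev χ u * θ (-χ)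

end

/-- **The equivariant Beilinson conjecture and explicit elements of `ℚ[G]`.** -/
theorem result :
    -- 0. the weights exist
    ((∀ d : ℕ, {γ : ℝ | Ck d γ = 0}.Finite) ∧ ∀ (d : ℕ) (γ : ℝ), ∃ ρ, IsRational d γ ρ) ∧
    ∀ γ : ℕ → ℝ, (∀ d, Real.pi / 2 < γ d ∧ Ck d (γ d) ≠ 0) →
    ∀ ρ : ℕ → ℕ → ℕ →₀ ℚ, (∀ d, IsRational d (γ d) (ρ d)) →
    ∀ k : ℕ, 1 ≤ k → ∀ (K : Type) [Field K] [NumberField K] (G : Type) [CommGroup G] [Fintype G],
    ∀ 𝔪 : Ideal (𝓞 K), 𝔪 ≠ ⊥ → 𝔪 ≠ ⊤ → ∀ c : Ideal (𝓞 K) → G, IsClassMap 𝔪 c →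
    -- 1. continuation
    (∀ χ : Character G, ∃ Λ : ℂ → ℂ, IsL 𝔪 c (value χ) Λ) ∧
    ∀ (Λ : Character G → ℂ → ℂ) (r : Character G → ℕ) (θ : Character G → ℂ),
      (∀ χ, IsL 𝔪 c (value χ) (Λ χ) ∧ θ χ ≠ 0 ∧ HasLead k (r χ) (Λ χ) (θ χ)) →
    -- 2. each order
    (∀ (d : ℕ) (χ : Character G), r (-χ) = d →
      (fun N : ℕ => ev χ (elt 𝔪 c k d (ρ d N)) - θ (-χ)) =O[atTop] fun N : ℕ => 1 / (N : ℝ)) ∧
    ∀ e : ℕ → MonoidAlgebra ℚ G, (∀ d χ, ev χ (e d) = if r (-χ) = d then 1 else 0) →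
    -- 3. all orders together
    (∀ χ : Character G, (fun N : ℕ => ev χ (total 𝔪 c k r e fun d => ρ d N) - θ (-χ)) =O[atTop]
      fun N : ℕ => 1 / (N : ℝ)) ∧
    -- 4. the conjecture
    ∀ D : Character G → ℂ,
      (IsRationalMultiple D θ ↔ ∃ u : MonoidAlgebra ℚ G, ∀ χ,
        Tendsto (fun N => ev χ (u * total 𝔪 c k r e fun d => ρ d N)) atTop (𝓝 (D χ))) ∧
      (IsRationalMultiple D θ ↔ ∃ M : ℕ, 1 ≤ M ∧ ∀ ε > 0, ∀ N₀ : ℕ, ∃ N ≥ N₀, ∃ n : G → ℤ, ∀ g,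
        ‖M * coef (fun χ => D χ / ev χ (total 𝔪 c k r e fun d => ρ d N)) g - n g‖ < ε) := by
  refine ⟨⟨rot_finite, exists_rational⟩, ?_⟩
  intro γ hγ ρ hρ k hk K _ _ G _ _ 𝔪 h0 h1 c hc
  refine ⟨fun χ => exists_isL (fun a b => mul_comm a b) h0 h1 hc (value χ), ?_⟩
  intro Λ r θ hall
  have hlaw : ∀ χ : Character G,
      (fun N : ℕ => approx 𝔪 c k (r χ) (ρ (r χ) N) (value χ) - θ χ) =O[atTop]
        fun N : ℕ => 1 / (N : ℝ) := fun χ =>
    law h1 (hall χ).1 hk (hall χ).2.2 (hγ (r χ)).1 (hγ (r χ)).2 (hρ (r χ))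
  refine ⟨?_, ?_⟩
  · rintro d χ rfl
    refine (hlaw (-χ)).congr_left fun N => ?_
    rw [ev_elt]
  intro e he
  have h3 : ∀ χ : Character G,
      (fun N : ℕ => ev χ (total 𝔪 c k r e fun d => ρ d N) - θ (-χ)) =O[atTop]
        fun N : ℕ => 1 / (N : ℝ) := by
    intro χ
    refine (hlaw (-χ)).congr_left fun N => ?_
    rw [ev_total 𝔪 c k r e (fun d => ρ d N) he χ]
  have hlim : ∀ χ : Character G,
      Tendsto (fun N : ℕ => ev χ (total 𝔪 c k r e fun d => ρ d N)) atTop (𝓝 (θ (-χ))) := by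
    intro χ
    have h4 := (h3 χ).trans_tendsto tendsto_one_div_atTop_nhds_zero_nat
    have h5 := h4.add_const (θ (-χ))
    simpa using h5
  refine ⟨h3, fun D => ⟨⟨?_, ?_⟩, ?_⟩⟩
  · rintro ⟨u, hu⟩
    refine ⟨u, fun χ => ?_⟩
    simp only [map_mul, hu χ]
    exact (hlim χ).const_mul _
  · rintro ⟨u, hu⟩
    refine ⟨u, fun χ => ?_⟩
    have h4 := hu χ
    simp only [map_mul] at h4
    exact tendsto_nhds_unique h4 ((hlim χ).const_mul _)
  · have h4 : IsRationalMultiple D θ ↔ ∀ g, ∃ q : ℚ, coef (fun χ => D χ / θ (-χ)) g = q := by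
      rw [← rational_iff]
      unfold IsRationalMultiple
      refine exists_congr fun u => forall_congr' fun χ => ?_
      rw [div_eq_iff (hall (-χ)).2.1]
    rw [h4]
    exact integral_iff fun χ => quot_bigO (hall (-χ)).2.1 (h3 χ) (hlim χ)

end Pool.Agent.Results.MP_a93ca1_nt.GroupRingApproximations
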