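import Pool.Agent.X156.GL.GR

/-!
# The equivariant Beilinson conjecture for `K_{2k-1}` of abelian extensions: the element `L*(1-k)` of the group ring as
a limit of absolutely convergent sums over primes, unconditionally, for all number fields `K` and all `k > 1`

`L/K` is an abelian extension with group `G`, `k > 1`. Choose generators (on each field factor of `ℚ[G]`) `h` of
`det H`, `H = ℚ ⊗ K_{2k-1}(L)`, and `b` of `det B_L^+`; then the Borel regulator maps `h` to `(D(χ))_χ · b` with nonzero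
`D(χ)`, and the conjecture `det H = L*(1-k) · det B_L^+` says that `∑_χ A(χ) e_χ ∈ ℚ[G]` for `A(χ) = D(χ) / L*(χ⁻¹, 1-k)`,
that is `A(χ)^σ = A(χ^σ)` for all `χ` and all automorphisms `σ` of `ℂ`.

By Artin's reciprocity law there is an ideal `𝔪 ≠ (0), (1)` of `K` such that the Artin symbol is a map `c` from the ideals of
`K` to `G` that is multiplicative on the ideals prime to `𝔪` and trivial on the `(x)` with `x ≡ 1` modulo `𝔪`, `x` totally
positive. Let

`L(s, χ) = ∏_{v ∤ 𝔪} (1 - χ(c(v)) Nv^{-s})⁻¹`, `Re s > 1`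

(the finitely many Euler factors `1 - χ(v) Nv^{k-1}` of the primes dividing `𝔪` at which `χ` is unramified are nonzero and
compatible with the automorphisms of `ℂ`, so that they do not affect the conjecture), `r(χ)` the order at `1 - k`,
`L*(χ, 1-k)` the leading coefficient there, and for a fixed `γ > π/2`

`S_χ(T) = ∑_{v ∤ 𝔪} ∑_{j ≥ 1} χ(c(v))^j Nv^{j(k-1)} exp(iγ j log Nv / T) / (j Γ(1 + j log Nv / T))`.

These sums converge absolutely although `1 - k` is at the distance `k` from the half plane of convergence: the Gamma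
factor beats `Nv^{j(k-1)}`. UNCONDITIONALLY, for all `K`, `G`, `c`, `k`:

1. (Hecke) the `L(s, χ)` continue to functions analytic on `ℂ - {1}` and meromorphic at `1`, uniquely; `r(χ) ≥ 0`.
2. `S_χ(T) = log L*(χ, 1-k) - r(χ) (log T - Λ(γ)) + O(1/T)`.
3. The `A(χ)` are the limits, with error `O(1/T)`, of `A_T(χ) = D(χ) (T e^{-Λ(γ)})^{-r(χ⁻¹)} exp(-S_{χ⁻¹}(T))`.
4. The following are equivalent:
   (a) the conjecture: `A(χ)^σ = A(χ^σ)` for all `χ`, `σ`;
   (b) the element `∑_χ A(χ) e_χ` of `ℂ[G]` has rational coefficients;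
   (c) for some `N ≥ 1` the coefficients of the elements `N ∑_χ A_T(χ) e_χ` come simultaneously arbitrarily close to
       integers for arbitrarily large `T`;
   (d) for some `N ≥ 1` these coefficients are `n(g) + O(1/T)` with integers `n(g)`.

No property of `L`-functions is assumed (neither continuation nor information on zeros nor a functional equation).

Ingredients: Hecke's continuation (`Pool.Agent.Y773`, `Y772`, `X287.ST`), and the rotated law at every point of the plane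
(`Pool.Agent.X156.GL`, based on `Pool.Agent.X287.CR`).
-/

set_option autoImplicit false
set_option linter.unusedSectionVars false

open Filter Topology Asymptotics
open IsDedekindDomain NumberField Pool.Agent.X156.GL.GR

namespace Pool.Agent.Results.MP_a93ca1_nt.LeadingTermElements

variable {K : Type} [Field K] [NumberField K] {G : Type} [CommGroup G] [Fintype G]

/-- The leading coefficient at `1 - k`. -/
noncomputable def lead (k : ℕ) (Λ : ℂ → ℂ) : ℂ := meromorphicTrailingCoeffAt Λ ((1 - k : ℤ) : ℂ)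

/-- `A(χ) = D(χ) / L*(χ⁻¹, 1-k)`. -/
noncomputable def quot (k : ℕ) (Λ : Character G → ℂ → ℂ) (D : Character G → ℂ) (χ : Character G) : ℂ :=
  D χ / lead k (Λ (-χ))

/-- `A_T(χ) = D(χ) (T e^{-Λ(γ)})^{-r(χ⁻¹)} exp(-S_{χ⁻¹}(T))`. -/
noncomputable def approx (𝔪 : Ideal (𝓞 K)) (c : Ideal (𝓞 K) → G) (k : ℕ) (γ T : ℝ) (r : Character G → ℤ)
    (D : Character G → ℂ) (χ : Character G) : ℂ :=
  D χ * ((T : ℂ) * Complex.exp (-Lambda γ)) ^ (-r (-χ)) * Complex.exp (-charSum 𝔪 c (1 - k) γ T (-χ))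

/-- The assertion of the conjecture on the family `A`: `A(χ)^σ = A(χ^σ)` for all `χ` and all `σ`. -/
def IsEquivariant (A : Character G → ℂ) : Prop := ∀ (σ : ℂ ≃+* ℂ) (χ : Character G), σ (A χ) = A (conj σ χ)

open Pool.Agent.X287.ST Pool.Agent.X287.CR in
theorem asy_neg {Λ : ℂ} {S : ℝ → ℂ} {m : ℤ} {r₀ : ℂ} (h : Asy Λ S m r₀) :
    Asy Λ (fun T => -S T) (-m) (-r₀) := by
  have h1 := IsBigO.neg_left h
  refine h1.congr_left fun T => ?_
  push_cast
  ring

/-- **The equivariant Beilinson conjecture and sums over primes.** -/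
theorem result (K : Type) [Field K] [NumberField K] (𝔪 : Ideal (𝓞 K)) (h0 : 𝔪 ≠ ⊥) (h1 : 𝔪 ≠ ⊤)
    (G : Type) [CommGroup G] [Fintype G] (c : Ideal (𝓞 K) → G) (hc : IsClassMap 𝔪 c) (k : ℕ) (hk : 1 < k)
    (γ : ℝ) (hγ : Real.pi / 2 < γ) :
    -- 1. continuation, uniqueness, absolute convergence
    (∀ χ : Character G, ∃ Λ, IsL 𝔪 c χ Λ) ∧
    (∀ (χ : Character G) (Λ Λ' : ℂ → ℂ), IsL 𝔪 c χ Λ → IsL 𝔪 c χ Λ' → ∀ s, s ≠ 1 → Λ s = Λ' s) ∧
    (∀ (χ : Character G) (T : ℝ), 0 < T → Summable fun x => ‖term 𝔪 c (1 - k) γ T χ x‖) ∧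
    ∀ Λ : Character G → ℂ → ℂ, (∀ χ, IsL 𝔪 c χ (Λ χ)) →
    ∃ r : Character G → ℤ, (∀ χ, meromorphicOrderAt (Λ χ) ((1 - k : ℤ) : ℂ) = r χ ∧ 0 ≤ r χ) ∧
      -- 2. order and leading coefficient
      (∀ χ, ∃ ℓ : ℂ, lead k (Λ χ) = Complex.exp ℓ ∧
        (fun T : ℝ => charSum 𝔪 c (1 - k) γ T χ - (ℓ - r χ * (Real.log T - Lambda γ))) =O[atTop]
          (fun T : ℝ => 1 / T)) ∧
      ∀ D : Character G → ℂ,
        -- 3. the quotients as limits
        (∀ χ, (fun T : ℝ => approx 𝔪 c k γ T r D χ - quot k Λ D χ) =O[atTop] (fun T : ℝ => 1 / T)) ∧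
        -- 4. the conjecture
        (IsEquivariant (quot k Λ D) ↔ ∀ g, ∃ q : ℚ, coef (quot k Λ D) g = q) ∧
        (IsEquivariant (quot k Λ D) ↔ ∃ N : ℕ, 1 ≤ N ∧ ∀ ε > 0, ∀ T₀ : ℝ, ∃ T ≥ T₀, ∃ n : G → ℤ,
            ∀ g, ‖N * coef (approx 𝔪 c k γ T r D) g - n g‖ < ε) ∧
        (IsEquivariant (quot k Λ D) ↔ ∃ N : ℕ, 1 ≤ N ∧ ∃ n : G → ℤ, ∀ g,
            (fun T : ℝ => N * coef (approx 𝔪 c k γ T r D) g - n g) =O[atTop] (fun T : ℝ => 1 / T)) := by
  refine ⟨fun χ => exists_L h0 h1 hc χ, fun χ Λ Λ' h h' s hs => uniq_L h h' hs,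
    fun χ T hT => term_summable (1 - k) γ hT χ, fun Λ hΛ => ?_⟩
  choose r ℓ hr hℓ hasy using fun χ => law χ (1 - k) (hΛ χ) hγ
  have hne : ((1 - k : ℤ) : ℂ) ≠ 1 := by
    intro h
    have h2 : (1 - k : ℤ) = 1 := by exact_mod_cast h
    omega
  refine ⟨r, fun χ => ⟨hr χ, ?_⟩, fun χ => ⟨ℓ χ, hℓ χ, ?_⟩, fun D => ?_⟩
  · have h2 := ((hΛ χ).analytic _ hne).meromorphicOrderAt_nonneg
    rw [hr χ] at h2
    exact_mod_cast h2
  · have h2 := IsBigO.neg_left (hasy χ)
    refine h2.congr_left fun T => ?_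
    ring
  have hrate : ∀ χ, (fun T : ℝ => approx 𝔪 c k γ T r D χ - quot k Λ D χ) =O[atTop]
      (fun T : ℝ => 1 / T) := by
    intro χ
    have h4 := Pool.Agent.X287.ST.asy_main (asy_neg (hasy (-χ)))
    refine (h4.const_mul_left (D χ)).congr_left fun T => ?_
    unfold approx quot lead
    rw [hℓ (-χ), Complex.exp_neg (ℓ (-χ))]
    unfold Pool.Agent.X287.ST.sc
    rw [neg_neg]
    ring
  have hS : IsEquivariant (quot k Λ D) ↔ ∀ g, ∃ q : ℚ, coef (quot k Λ D) g = q := equi_iff _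
  obtain ⟨h3, h4⟩ := integral_iff hrate
  exact ⟨hrate, hS, hS.trans h3, hS.trans h4⟩

end Pool.Agent.Results.MP_a93ca1_nt.LeadingTermElements
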