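import Pool.Agent.X310.BeC

/-!
# The equivariant Beilinson conjecture for abelian extensions of non-abelian fields

Fix `k > 1`. `T : BorelSystem` models the regulator quotients `A(χ)` for `K_{2k-1}` of number fields, with
their formal properties (additive in the character `χ`, invariant under induction, independence of
`A(χ)^σ / A(χ^σ)` of the choices) and the two known cases of the conjecture: the trivial characters of all
number fields (Borel) and the characters of abelian extensions of `ℚ` (Beilinson). The equivariant conjecture
for the abelian extension `KM/K` is `T.Equivariant K M`: the conjecture for all characters of its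
Galois group.

Let `K/K₀` be an extension of number fields, and `M/K₀` an abelian extension, such that every element of
the absolute Galois group of `K₀` which is not trivial on `M` fixes exactly one `K₀`-embedding of `K`. For
example: `KM/K₀` is Galois with a Frobenius group with the complement `Gal(KM/K)` (`IsFrob`); in
particular `K/K₀` may be any extension of prime degree with solvable Galois closure `KM`. Another example:
`K₀ = ℚ`, `K = ℚ(a^{1/p^n})`, `M = ℚ(ζ_p)`. Then the equivariant conjecture for `KM/K` is
equivalent to that for `M/K₀`; so for `K₀ = ℚ` it is true. This can be applied repeatedly, in towers.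

The last part: the conjecture is true for a character `χ` of an abelian extension of `K` if the
induced character of `ℚ` is a difference of sums of characters of abelian extensions of `ℚ` and of
permutation characters; if this is true for a multiple of it, then up to roots of unity.
-/

set_option autoImplicit false

namespace Pool.Agent.Results.MP_a93ca1_nt.OneFixedEmbedding

open Pool.Agent.X208.BR.Pk Pool.Agent.X310.Be

theorem result (T : BorelSystem) :
    -- transfer from `M/K₀` to `KM/K`
    (∀ (K₀ K M : Fld) (h : K₀ ≤ K), IsNF K → IsNF M → IsAb K₀ M →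
      ((∀ g : G K₀, (g : GalQ) ∉ G M → FixesOne K₀ K g) ∨ IsFrob K₀ K M) →
      (∀ χ : G K₀ → ℂ, IsLin K₀ M χ →
        ind h (res h χ) + (fun _ => 1) = χ + ind h fun _ => 1) ∧
      (T.Equivariant K M ↔ T.Equivariant K₀ M)) ∧
    -- the base field `ℚ`
    (∀ K M : Fld, IsNF K → IsNF M → IsAb QQ M →
      ((∀ g : G QQ, (g : GalQ) ∉ G M → FixesOne QQ K g) ∨ IsFrob QQ K M) →
      T.Equivariant K M) ∧
    -- single characters
    (∀ (K M : Fld) (h : QQ ≤ K) (χ : G K → ℂ) (a b : G QQ → ℂ), IsNF K → IsNF M → IsLin K M χ →
      Elementary a → Elementary b →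
      (ind h χ + a = b → T.Holds K χ) ∧
      ∀ n : ℕ, n • ind h χ + a = b → ∀ (L : Fld) (σ : ℂ ≃+* ℂ), Over L K → IsCharOf L K χ →
        (σ (T.A L K χ)) ^ n = (T.A L K fun g => σ (χ g) : ℂ) ^ n) := by
  refine ⟨fun K₀ K M h hK hM hab hc => ?_, fun K M hK hM hab hc => ?_,
    fun K M h χ a b hK hM hχ ha hb => ⟨fun h1 => holds_of_elementary T hK hM hχ ha hb h1,
      fun n h1 L σ hL hL' => pow_of_elementary T hK hM hχ n ha hb h1 L σ hL hL'⟩⟩
  · have hfix : ∀ g : G K₀, (g : GalQ) ∉ G M → FixesOne K₀ K g :=
      hc.elim id fun hF => frobenius h hK hab hF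
    exact ⟨fun χ hχ => relation h hK hfix hχ, equivariant_iff T h hK hM hab hfix⟩
  · exact equivariant_QQ T hK hM hab (hc.elim id fun hF => frobenius (QQ_le K) hK hab hF)

end Pool.Agent.Results.MP_a93ca1_nt.OneFixedEmbedding
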